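import Mathlib

set_option autoImplicit false

/-!
# The power-sum ratio `T_{10,5}` is not an integer

For `ℓ = 2` the `ℓ`-sequence is `u_m = m`, and
`T_{10,5} = (1 ^ 51 + 2 ^ 51 + … + 10 ^ 51) / (1 ^ 3 + … + 10 ^ 3)` is not an integer: the denominator is
`3025 = 5² 11²`.
-/

namespace Pool.Agent.Results.MP_0634a4_nt.CubeSumCounterexample

/-- The `ℓ`-sequence: `u 0 = 0`, `u 1 = 1`, `u (m + 2) = ℓ u (m + 1) - u m`. -/
def u (l : ℤ) : ℕ → ℤ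
  | 0 => 0
  | 1 => 1
  | (m + 2) => l * u l (m + 1) - u l m

/-- `S_k(j, n) = ∑ u_i ^ (2 k - 1)` over `j ≤ i ≤ n`. -/
def S (l : ℤ) (k j n : ℕ) : ℤ := ∑ i ∈ Finset.Icc j n, u l i ^ (2 * k - 1)

/-- `P_{n,k}`, the product over `1 ≤ j ≤ n` of `S_k(j, n) / u_j`, a rational number. -/
def P (l : ℤ) (n k : ℕ) : ℚ := ∏ j ∈ Finset.Icc 1 n, (S l k j n : ℚ) / (u l j : ℚ)

/-- `R_{n,k} = S_k(1, n) / S_1(1, n)`, a rational number. -/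
def R (l : ℤ) (n k : ℕ) : ℚ := (S l k 1 n : ℚ) / (S l 1 1 n : ℚ)

/-- `T_{n,k} = (∑ u_i ^ (3 (4 k - 3))) / (∑ u_i ^ 3)`, sums over `1 ≤ i ≤ n`, a rational number. -/
def T (l : ℤ) (n k : ℕ) : ℚ :=
  ((∑ i ∈ Finset.Icc 1 n, u l i ^ (3 * (4 * k - 3)) : ℤ) : ℚ) / ((∑ i ∈ Finset.Icc 1 n, u l i ^ 3 : ℤ) : ℚ)

/-- For `ℓ = 2` the sequence is `u_m = m`. -/
theorem u_two (m : ℕ) : u 2 m = m := by
  induction m using Nat.strong_induction_on with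
  | _ m ih =>
    match m with
    | 0 => rfl
    | 1 => rfl
    | (m + 2) =>
      have h1 := ih (m + 1) (by omega)
      have h2 := ih m (by omega)
      simp only [u, h1, h2]
      push_cast
      ring

/-- `T_{10,5}` is not an integer for `ℓ = 2`. -/
theorem T_not_int : ∀ z : ℤ, T 2 10 5 ≠ z := by
  intro z h
  unfold T at h
  simp_rw [u_two] at h
  have hden : (∑ i ∈ Finset.Icc 1 10, ((i : ℕ) : ℤ) ^ 3) = 3025 := by decide +kernel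
  rw [hden] at h
  have h2 : ((∑ i ∈ Finset.Icc 1 10, ((i : ℕ) : ℤ) ^ (3 * (4 * 5 - 3)) : ℤ) : ℚ) = (z : ℚ) * ((3025 : ℤ) : ℚ) := by
    rw [← h]
    field_simp
  have h3 : (∑ i ∈ Finset.Icc 1 10, ((i : ℕ) : ℤ) ^ (3 * (4 * 5 - 3)) : ℤ) = z * 3025 := by
    exact_mod_cast h2
  have h4 : (∑ i ∈ Finset.Icc 1 10, ((i : ℕ) : ℤ) ^ (3 * (4 * 5 - 3)) : ℤ) % 3025 ≠ 0 := by decide +kernel
  rw [h3] at h4
  exact h4 (Int.mul_emod_left z 3025)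

/-- **Theorem.** The negated form of the question: it is not true that `P_{n,k}` and `R_{n,k}` are integers for all
`ℓ ≥ 2`, `n, k ≥ 1` and `T_{n,k}` is an integer for `ℓ = 2` and all `n, k ≥ 1`; namely `T_{10,5}` is not an integer
for `ℓ = 2`. -/
theorem result :
    (∃ n k : ℕ, 1 ≤ n ∧ 1 ≤ k ∧ ∀ z : ℤ, T 2 n k ≠ z) ∧
      ¬ (∀ n k : ℕ, 1 ≤ n → 1 ≤ k →
        (∀ l : ℤ, 2 ≤ l → (∃ z : ℤ, P l n k = z) ∧ (∃ z : ℤ, R l n k = z)) ∧ (∃ z : ℤ, T 2 n k = z)) := by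
  refine ⟨⟨10, 5, by norm_num, by norm_num, T_not_int⟩, fun h => ?_⟩
  obtain ⟨z, hz⟩ := (h 10 5 (by norm_num) (by norm_num)).2
  exact T_not_int z hz

end Pool.Agent.Results.MP_0634a4_nt.CubeSumCounterexample
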